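import Pool.Agent.Work.MP_cbc9f3_lc.Bridge

/-!
# MP_cbc9f3_lc : the answer to Q1 is no

In every model `(M, E)` of ZF: if some condition of `Add(ω₃, 1)` forces that `ω₁` is not a cardinal,
then every condition forces that `ω₂` is not a cardinal and that `ω₃` is not a cardinal.

The definitions are in `Pool/Agent/Work/MP_cbc9f3_lc/Defs.lean`.
-/

namespace Pool.Agent.Results.MP_cbc9f3_lc.CohenOmegaThree

open CF

universe u

theorem result {M : Type u} (E : M → M → Prop) (hE : IsZF E) :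
    -- check names, the set of conditions and the forcing relation exist and are unique
    (∃! c : M → M, IsCheck E c) ∧
    (∀ κ : M, ∃! P : M, IsAdd E κ P) ∧
    (∀ P : M, ∃ Q, IsForceEq E P (Le E) Q ∧
      ∀ Q', IsForceEq E P (Le E) Q' → ∀ p x y, E p P → (Q' p x y ↔ Q p x y)) ∧
    -- the answer
    ∀ (a₁ a₂ a₃ P : M) (c : M → M) (Q : M → M → M → Prop),
      IsAleph E 1 a₁ → IsAleph E 2 a₂ → IsAleph E 3 a₃ → IsAdd E a₃ P → IsCheck E c →
      IsForceEq E P (Le E) Q → Collapses E P (Le E) c Q a₁ →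
        Collapses E P (Le E) c Q a₂ ∧ Collapses E P (Le E) c Q a₃ ∧
        ∀ p, E p P → Forces E P (Le E) Q (.neg .card) p (fun _ => c a₂) ∧
          Forces E P (Le E) Q (.neg .card) p (fun _ => c a₃) := by
  let _ : ZFM M := ⟨E, hE⟩
  refine ⟨exists_unique_check, ?_, ?_, ?_⟩
  · intro κ
    obtain ⟨P, hP⟩ := exists_add (M := M) κ
    refine ⟨P, hP, fun P' hP' => ext fun p => ?_⟩
    exact (hP' p).trans (hP p).symm
  · intro P
    obtain ⟨Q, hQ⟩ := exists_forceEq (M := M) P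
    refine ⟨Q, hQ, fun Q' hQ' p x y hp => ?_⟩
    exact Frc.unique P _ (isForceEq_iff.1 hQ') (isForceEq_iff.1 hQ) x y p hp
  · intro a₁ a₂ a₃ P c Q h1 h2 h3 hP hc hQ hcol
    obtain ⟨p, hp, hpf⟩ := hcol
    have hP' := isAdd_iff.1 hP
    have hc' := isCheck_iff.1 hc
    have hQ' := isForceEq_iff.1 hQ
    have ho3 := isAleph_ord h3
    -- `ω₂ ∈ ω₃`
    have h23 : a₂ ∈ a₃ := by
      obtain ⟨_, b, hb, hba, _⟩ := h3
      rw [isAleph_unique h2 hb]
      exact hba
    have hk : Card a₃ := isCard_iff.1 h3.1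
    have hω := omega_sub_isAleph h3
    have ha1 : Card a₁ := isCard_iff.1 h1.1
    have hω1 := omega_mem_isAleph h1
    have hmin : ∀ b, b ∈ a₁ → Card b → ¬ (omega : M) ∈ b := by
      obtain ⟨_, b, hb, _, hmin⟩ := h1
      intro d hd hdc
      have := hmin d hd (isCard_iff.2 hdc)
      rw [isAleph_zero hb] at this
      exact this
    have key : ∀ a, CF.Ord a → (omega : M) ∈ a → Sub a a₃ → ∀ q, q ∈ P →
        Forces E P (Le E) Q (.neg .card) q (fun _ => c a) := fun a ha hωa hak q hq =>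
      answer hk hω hP' hQ' hc' ha1 hω1 hmin hp hpf ha hωa hak hq
    have k2 := key a₂ (isAleph_ord h2) (omega_mem_isAleph h2) (ho3.1 _ h23)
    have k3 := key a₃ ho3 (omega_mem_isAleph h3) (Sub.refl _)
    exact ⟨⟨p, hp, k2 p hp⟩, ⟨p, hp, k3 p hp⟩, fun q hq => ⟨k2 q hq, k3 q hq⟩⟩

end Pool.Agent.Results.MP_cbc9f3_lc.CohenOmegaThree
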